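import Pool.Agent.Helper1.RK.StC

/-!
# Project RK (MP_de00bc_nt), module ARI: arithmetic of the three degrees
-/

set_option autoImplicit false

namespace Pool.Agent.Helper98.RK

open Pool.Agent.Helper1.RK

theorem pARI : StARI := by
  intro μ A G P B C hμ ht hP hB hC hI hD hN
  have e : ∀ j, ∑ k ∈ Finset.univ.erase j, A k = A 0 + A 1 + A 2 - A j := by
    intro j
    rw [Finset.sum_erase_eq_sub (Finset.mem_univ j), Fin.sum_univ_three]
  have s0 := hI 0
  have s1 := hI 1
  have s2 := hI 2
  rw [e] at s0 s1 s2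
  have m0 := hμ 0
  have m1 := hμ 1
  have m2 := hμ 2
  have h1 : ∀ j k, C k → μ j ≤ μ k := fun j k hk => Nat.le_of_dvd (hμ k) (hD j k hk)
  have h2 : ∀ j k, C k → P j → 2 * μ j ≤ μ k := by
    intro j k hk hj
    obtain ⟨c, hc⟩ := hD j k hk
    have h3 := hN j k hk hj
    have h4 := hμ k
    rcases c with _ | _ | c
    · rw [hc] at h4
      simp at h4
    · rw [hc] at h3
      simp at h3
    · rw [hc, mul_comm]
      exact Nat.mul_le_mul_left _ (by omega)
  rcases ht 0 with t0 | t0 | t0 <;> rcases ht 1 with t1 | t1 | t1 <;>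
    rcases ht 2 with t2 | t2 | t2
  all_goals
    try have p0 := hP 0 t0
    try have b0 := hB 0 t0
    try have c0 := hC 0 t0
    try have p1 := hP 1 t1
    try have b1 := hB 1 t1
    try have c1 := hC 1 t1
    try have p2 := hP 2 t2
    try have b2 := hB 2 t2
    try have c2 := hC 2 t2
    try have d10 := h1 1 0 t0
    try have d20 := h1 2 0 t0
    try have d01 := h1 0 1 t1
    try have d21 := h1 2 1 t1
    try have d02 := h1 0 2 t2
    try have d12 := h1 1 2 t2
    try have q10 := h2 1 0 t0 t1
    try have q20 := h2 2 0 t0 t2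
    try have q01 := h2 0 1 t1 t0
    try have q21 := h2 2 1 t1 t2
    try have q02 := h2 0 2 t2 t0
    try have q12 := h2 1 2 t2 t1
    first
    | (exfalso; omega)
    | (intro k; fin_cases k <;> assumption)

end Pool.Agent.Helper98.RK
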